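import Pool.Agent.Work.MP_e57da2_ag.Main

open CategoryTheory AlgebraicGeometry Pool.Agent.Work.MP_e57da2_ag

namespace Pool.Agent.Results.MP_e57da2_ag.SeshadriJets

/-- For every `u > 0` there are `t > 0` and `p ≥ 1` such that, for all principally polarized
abelian varieties of dimension `g` over `k`, `ε > u` if and only if `β_p < t`. -/
theorem result (k : Type) [Field k] [IsAlgClosed k] (g : ℕ) (hg : 1 ≤ g) (u : ℝ) (hu : 0 < u) :
    ∃ (t : ℝ) (p : ℕ), 0 < t ∧ 1 ≤ p ∧
      ∀ (A : Sch k) [GrpObj A] [IsProper A.hom] [GeometricallyIntegral A.hom],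
        topologicalKrullDim A.left = g → ∀ L : A.left.Modules, IsLine L → IsAmple L →
          hzero A L = 1 → ∀ x : A.left, IsClosed ({x} : Set A.left) →
            (ENNReal.ofReal u < seshadri L x ↔ beta L x p < ENNReal.ofReal t) := by
  obtain ⟨p, hp, h⟩ := main k g hg u hu
  exact ⟨p / u, p, div_pos (Nat.cast_pos.2 hp) hu, hp, h⟩

end Pool.Agent.Results.MP_e57da2_ag.SeshadriJets
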